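import Pool.Agent.H12.UT.Targets2

/-! MP_8b378c_ag: board utn_modules, row PS. -/

open Polynomial
open Pool.Agent.H12.UT

namespace Pool.Agent.H20.UT

theorem ps_coeff {κ E : Type} [Field κ] [Field E] (i : κ →+* E) (ν : E) (s : ℝ)
    (A : (HS κ)[X]) (y : ℝ) :
    (ps i ν s A).coeff y = ∑ j ∈ A.support, i ((A.coeff j).coeff (y - s * j)) * ν ^ j := by
  have h1 : ps i ν s A = ∑ j ∈ A.support,
      hmap i (A.coeff j) * (HahnSeries.single s ν : HS E) ^ j := by
    show A.eval₂ (hmap i) (HahnSeries.single s ν) = _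
    rw [Polynomial.eval₂_eq_sum, Polynomial.sum_def]
  rw [h1, HahnSeries.coeff_sum]
  refine Finset.sum_congr rfl (fun j _ => ?_)
  rw [HahnSeries.single_pow]
  have h2 : y = (y - s * j) + (j • s) := by
    rw [nsmul_eq_mul]; ring
  conv_lhs => rw [h2]
  rw [HahnSeries.coeff_mul_single_add]
  rfl

theorem ps_low {κ : Type} [Field κ] (x : HS κ) (m t : ℝ) (h : m ≤ x.order + t) (y : ℝ)
    (hy : y < m) : x.coeff (y - t) = 0 := by
  refine HahnSeries.coeff_eq_zero_of_lt_order ?_
  linarith

/-- PS. -/
theorem pf_PS (_hHM : T_HM) : T_PS := by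
  classical
  intro κ E _ _ _ _ A s m h1 h2
  set i : κ →+* E := (algebraMap κ[X] E).comp C with hi
  set ν : E := algebraMap κ[X] E X with hν
  set Q : κ[X] := ∑ j ∈ A.support.filter (fun j => (A.coeff j).order + s * j = m),
      monomial j (A.coeff j).leadingCoeff with hQ
  have hlow : ∀ y : ℝ, y < m → (ps i ν s A).coeff y = 0 := by
    intro y hy
    rw [ps_coeff]
    refine Finset.sum_eq_zero (fun j hj => ?_)
    rw [ps_low (A.coeff j) m (s * j) (h1 j hj) y hy, map_zero, zero_mul]
  have htop : (ps i ν s A).coeff m = algebraMap κ[X] E Q := by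
    rw [ps_coeff, hQ, map_sum, Finset.sum_filter]
    refine Finset.sum_congr rfl (fun j hj => ?_)
    by_cases hjm : (A.coeff j).order + s * j = m
    · rw [if_pos hjm]
      have h3 : m - s * j = (A.coeff j).order := by linarith
      rw [h3, ← HahnSeries.leadingCoeff_eq, ← Polynomial.C_mul_X_pow_eq_monomial, map_mul, map_pow]
      rfl
    · rw [if_neg hjm]
      have h3 : m - s * j < (A.coeff j).order := by
        have := lt_of_le_of_ne (h1 j hj) (Ne.symm hjm)
        linarith
      rw [HahnSeries.coeff_eq_zero_of_lt_order h3, map_zero, zero_mul]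
  have hQ0 : Q ≠ 0 := by
    obtain ⟨j, hj, hjm⟩ := h2
    intro h0
    have h3 : Q.coeff j = (A.coeff j).leadingCoeff := by
      rw [hQ, Polynomial.finsetSum_coeff]
      rw [Finset.sum_eq_single j]
      · rw [Polynomial.coeff_monomial, if_pos rfl]
      · intro k _ hk
        rw [Polynomial.coeff_monomial, if_neg hk]
      · intro hk
        exact absurd (Finset.mem_filter.mpr ⟨hj, hjm⟩) hk
    rw [h0, Polynomial.coeff_zero] at h3
    exact Polynomial.mem_support_iff.mp hj (HahnSeries.leadingCoeff_eq_zero.mp h3.symm)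
  have hne : (ps i ν s A).coeff m ≠ 0 := by
    rw [htop]
    intro h0
    exact hQ0 ((map_eq_zero_iff _ (IsFractionRing.injective κ[X] E)).mp h0)
  have hne' : ps i ν s A ≠ 0 := by
    intro h0
    rw [h0] at hne
    exact hne rfl
  have hord : (ps i ν s A).order = m := by
    refine le_antisymm (HahnSeries.order_le_of_coeff_ne_zero hne) ?_
    by_contra hlt
    push Not at hlt
    exact HahnSeries.coeff_order_eq_zero.not.mpr hne' (hlow _ hlt)
  refine ⟨hne', ?_⟩
  rw [HahnSeries.leadingCoeff_eq, hord, htop]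

end Pool.Agent.H20.UT
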