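import Pool.Agent.H12.UT.Targets2

/-! MP_8b378c_ag: board utn_modules, row SIG. -/

open Polynomial
open Pool.Agent.H12.UT

namespace Pool.Agent.H20.UT

theorem sig_isUnit_xS (i : Fin 3) : IsUnit (xS i) := by
  have h : IsUnit (algebraMap (MvPolynomial (Fin 3) ℚ) S3
      (MvPolynomial.X 0 * MvPolynomial.X 1 * MvPolynomial.X 2)) :=
    IsLocalization.Away.algebraMap_isUnit _
  rw [map_mul, map_mul, IsUnit.mul_iff, IsUnit.mul_iff] at h
  fin_cases i
  · exact h.1.1
  · exact h.1.2
  · exact h.2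

theorem sig_hom (t : Fin 3 → S3) (ht : ∀ i, IsUnit (t i)) :
    ∃ f : S3 →+* S3, ∀ i, f (xS i) = t i := by
  have hu : IsUnit ((MvPolynomial.aeval t : MvPolynomial (Fin 3) ℚ →ₐ[ℚ] S3).toRingHom
      (MvPolynomial.X 0 * MvPolynomial.X 1 * MvPolynomial.X 2)) := by
    show IsUnit ((MvPolynomial.aeval t : MvPolynomial (Fin 3) ℚ →ₐ[ℚ] S3)
      (MvPolynomial.X 0 * MvPolynomial.X 1 * MvPolynomial.X 2))
    rw [map_mul, map_mul, MvPolynomial.aeval_X, MvPolynomial.aeval_X, MvPolynomial.aeval_X]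
    exact ((ht 0).mul (ht 1)).mul (ht 2)
  refine ⟨IsLocalization.Away.lift (S := S3)
    (MvPolynomial.X 0 * MvPolynomial.X 1 * MvPolynomial.X 2 : MvPolynomial (Fin 3) ℚ) hu, ?_⟩
  intro i
  unfold xS
  rw [IsLocalization.Away.lift_eq]
  show (MvPolynomial.aeval t : MvPolynomial (Fin 3) ℚ →ₐ[ℚ] S3) (MvPolynomial.X i) = t i
  rw [MvPolynomial.aeval_X]

theorem sig_ext (f g : S3 →+* S3) (h : ∀ i, f (xS i) = g (xS i)) : f = g := by
  refine IsLocalization.ringHom_ext (Submonoid.powers
    (MvPolynomial.X 0 * MvPolynomial.X 1 * MvPolynomial.X 2 : MvPolynomial (Fin 3) ℚ)) ?_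
  refine MvPolynomial.ringHom_ext (fun r => ?_) (fun i => h i)
  have := RingHom.ext_rat ((f.comp (algebraMap (MvPolynomial (Fin 3) ℚ) S3)).comp MvPolynomial.C)
    ((g.comp (algebraMap (MvPolynomial (Fin 3) ℚ) S3)).comp MvPolynomial.C)
  exact RingHom.congr_fun this r

/-- SIG. -/
theorem pf_SIG : T_SIG := by
  classical
  have hex : ∀ i : Fin 3, ∃ f : S3 →+* S3, (f (xS i) * xS i = -1) ∧
      (∀ j, i ≠ j → f (xS j) = xS j) := by
    intro i
    obtain ⟨u, hu⟩ := sig_isUnit_xS i
    obtain ⟨f, hf⟩ := sig_hom (fun j => if j = i then -((u⁻¹ : S3ˣ) : S3) else xS j) (by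
      intro j
      by_cases hj : j = i
      · simp only [hj, if_true]
        exact (Units.isUnit _).neg
      · simp only [hj, if_false]
        exact sig_isUnit_xS j)
    refine ⟨f, ?_, ?_⟩
    · rw [hf i, if_pos rfl, ← hu]
      simp
    · intro j hj
      rw [hf j, if_neg (Ne.symm hj)]
  choose f hf1 hf2 using hex
  have hinj : ∀ i : Fin 3, ∀ a b : S3, a * xS i = b * xS i → a = b := by
    intro i a b hab
    exact (sig_isUnit_xS i).mul_right_cancel hab
  have hff : ∀ i, (f i).comp (f i) = RingHom.id S3 := by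
    intro i
    refine sig_ext _ _ (fun j => ?_)
    rw [RingHom.comp_apply, RingHom.id_apply]
    by_cases hj : i = j
    · subst hj
      have h1 := congrArg (f i) (hf1 i)
      rw [map_mul, map_neg, map_one] at h1
      have h2 := hf1 i
      have h3 : (f i (f i (xS i)) - xS i) * f i (xS i) = 0 := by
        rw [sub_mul, h1, mul_comm (xS i), h2, sub_self]
      have h4 : IsUnit (f i (xS i)) := (sig_isUnit_xS i).map (f i)
      have h5 := h4.mul_left_eq_zero.mp h3
      exact sub_eq_zero.mp h5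
    · rw [hf2 i j hj, hf2 i j hj]
  have hcomm : ∀ i j, (f i).comp (f j) = (f j).comp (f i) := by
    intro i j
    refine sig_ext _ _ (fun k => ?_)
    rw [RingHom.comp_apply, RingHom.comp_apply]
    by_cases hij : i = j
    · subst hij; rfl
    by_cases hik : i = k
    · subst hik
      rw [hf2 j i (Ne.symm hij)]
      have h1 := congrArg (f j) (hf1 i)
      rw [map_mul, map_neg, map_one, hf2 j i (Ne.symm hij)] at h1
      exact hinj i _ _ ((hf1 i).trans h1.symm)
    · rw [hf2 i k hik]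
      by_cases hjk : j = k
      · subst hjk
        have h1 := congrArg (f i) (hf1 j)
        rw [map_mul, map_neg, map_one, hf2 i j hij] at h1
        exact hinj j _ _ (h1.trans (hf1 j).symm)
      · rw [hf2 j k hjk, hf2 i k hik]
  refine ⟨fun i => RingEquiv.ofRingHom (f i) (f i) (hff i) (hff i), ?_, ?_, ?_, ?_⟩
  · intro i
    exact hf1 i
  · intro i j hij
    exact hf2 i j hij
  · intro i x
    exact RingHom.congr_fun (hff i) x
  · intro i j x
    exact RingHom.congr_fun (hcomm i j) x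

end Pool.Agent.H20.UT
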