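import Pool.Agent.H12.UT.Targets2

/-! MP_8b378c_ag: board utn_modules, row A2. -/

open Polynomial
open Pool.Agent.H12.UT

namespace Pool.Agent.H20.UT

theorem a2_trailingCoeff_C {κ : Type} [Field κ] (c : κ) : (C c : κ[X]).trailingCoeff = c := by
  by_cases h : c = 0
  · subst h
    simp
  · unfold Polynomial.trailingCoeff
    rw [Polynomial.natTrailingDegree_C, Polynomial.coeff_C_zero]

theorem a2_trailingCoeff_of {κ : Type} [Field κ] (p : κ[X]) (h : p.coeff 0 ≠ 0) :
    p.trailingCoeff = p.coeff 0 := by
  unfold Polynomial.trailingCoeff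
  rw [Polynomial.natTrailingDegree_eq_zero_of_constantCoeff_ne_zero]
  exact h

/-- norm of the root -/
theorem a2_norm {κ : Type} [Field κ] (a b d : κ) (H : κ → Prop) (hH : HG a b d H)
    (p : κ[X]) (hm : p.Monic) (hp : Irreducible p) (h0 : p.coeff 0 ≠ 0)
    (ha : IsSquare (AdjoinRoot.of p a)) (hb : IsSquare (AdjoinRoot.of p b))
    (hd : IsSquare (AdjoinRoot.of p d)) : H (p.coeff 0) := by
  have : Fact (Irreducible p) := ⟨hp⟩
  let pb := AdjoinRoot.powerBasis hp.ne_zero
  have : FiniteDimensional κ (AdjoinRoot p) := pb.finite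
  have hgen : pb.gen = AdjoinRoot.root p := AdjoinRoot.powerBasis_gen hp.ne_zero
  have hmin : minpoly κ pb.gen = p := by
    rw [hgen, AdjoinRoot.minpoly_root hp.ne_zero, hm.leadingCoeff, inv_one, C_1, mul_one]
  have hdim : pb.dim = p.natDegree := AdjoinRoot.powerBasis_dim hp.ne_zero
  have hn : Algebra.norm κ (AdjoinRoot.root p) = (-1) ^ p.natDegree * p.coeff 0 := by
    have := Algebra.PowerBasis.norm_gen_eq_coeff_zero_minpoly pb
    rw [hmin, hdim, hgen] at this
    exact this
  have hrank : Module.finrank κ (AdjoinRoot p) = p.natDegree := by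
    rw [pb.finrank, hdim]
  have hn2 : Algebra.norm κ (-AdjoinRoot.root p) = p.coeff 0 := by
    have h1 : (-AdjoinRoot.root p) = algebraMap κ (AdjoinRoot p) (-1) * AdjoinRoot.root p := by
      rw [map_neg, map_one, neg_one_mul]
    rw [h1, map_mul, Algebra.norm_algebraMap, hrank, hn, ← mul_assoc, ← mul_pow]
    norm_num
  have hroot : -AdjoinRoot.root p ≠ 0 := by
    intro h
    rw [h, Algebra.norm_zero] at hn2
    exact h0 hn2.symm
  rw [← hn2]
  exact hH.nrm (AdjoinRoot p) ha hb hd _ hroot

theorem a2_coeff_zero {κ : Type} [Field κ] (a : κ) (ha : ¬ IsSquare a) (p : κ[X])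
    (hp : Irreducible p) (h : IsSquare (AdjoinRoot.of p a)) : p.coeff 0 ≠ 0 := by
  intro h0
  have hX : (X : κ[X]) ∣ p := Polynomial.X_dvd_iff.mpr h0
  have hpX : p ∣ (X : κ[X]) := Polynomial.irreducible_X.dvd_symm hp hX
  obtain ⟨w, hw⟩ := h
  obtain ⟨r, rfl⟩ := AdjoinRoot.mk_surjective w
  have h1 : AdjoinRoot.mk p (C a - r * r) = 0 := by
    rw [map_sub, map_mul, ← hw]
    exact sub_self _
  have h2 : p ∣ C a - r * r := AdjoinRoot.mk_eq_zero.mp h1
  have h3 : (X : κ[X]) ∣ C a - r * r := hX.trans h2
  have h4 := Polynomial.X_dvd_iff.mp h3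
  rw [Polynomial.coeff_sub, Polynomial.coeff_C_zero, Polynomial.mul_coeff_zero] at h4
  exact ha ⟨r.coeff 0, sub_eq_zero.mp h4⟩

theorem a2_mult {κ : Type} [Field κ] (q f g : κ[X]) (hq : Irreducible q) (hf : f ≠ 0)
    (hg : g ≠ 0) : multiplicity q (f * g) = multiplicity q f + multiplicity q g :=
  multiplicity_mul hq.prime (FiniteMultiplicity.of_prime_left hq.prime (mul_ne_zero hf hg))

/-- A2. -/
theorem pf_A2 : T_A2 := by
  classical
  intro κ _ a b d H hH ha f
  induction hn : f.natDegree using Nat.strong_induction_on generalizing f with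
  | _ n ih =>
    intro hf hp
    by_cases h0 : f.natDegree = 0
    · obtain ⟨c, rfl⟩ := Polynomial.natDegree_eq_zero.mp h0
      have hc : c ≠ 0 := by
        intro h
        apply hf
        rw [h, C_0]
      rw [leadingCoeff_C, a2_trailingCoeff_C, ← sq]
      exact hH.sq c hc
    · have hnu : ¬ IsUnit f := by
        intro hu
        exact h0 (Polynomial.natDegree_eq_zero_of_isUnit hu)
      obtain ⟨p, hpm, hpi, g, hg⟩ := Polynomial.exists_monic_irreducible_factor f hnu
      have hp0 : p ≠ 0 := hpi.ne_zero
      have hpd : 0 < p.natDegree := hpi.natDegree_pos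
      have hg0 : g ≠ 0 := by
        rintro rfl
        rw [mul_zero] at hg
        exact hf hg
      by_cases hpg : p ∣ g
      · obtain ⟨h, hh⟩ := hpg
        have hh0 : h ≠ 0 := by
          rintro rfl
          rw [mul_zero] at hh
          exact hg0 hh
        have hdeg : h.natDegree < n := by
          rw [← hn, hg, hh, natDegree_mul hp0 (mul_ne_zero hp0 hh0), natDegree_mul hp0 hh0]
          omega
        have key := ih h.natDegree hdeg h rfl hh0 (by
          intro q hq hodd
          apply hp q hq
          rw [hg, a2_mult q p g hq hp0 hg0, hh, a2_mult q p h hq hp0 hh0]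
          have : multiplicity q p + (multiplicity q p + multiplicity q h)
            = 2 * multiplicity q p + multiplicity q h := by ring
          rw [this]
          exact (even_two_mul _).add_odd hodd)
        have h1 : f.trailingCoeff * f.leadingCoeff
            = p.trailingCoeff ^ 2 * (h.trailingCoeff * h.leadingCoeff) := by
          rw [hg, hh, Polynomial.trailingCoeff_mul, Polynomial.trailingCoeff_mul,
            Polynomial.leadingCoeff_mul, Polynomial.leadingCoeff_mul, hpm.leadingCoeff]
          ring
        rw [h1]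
        refine hH.mul _ _ (hH.sq _ ?_) key
        rw [Ne, Polynomial.trailingCoeff_eq_zero]
        exact hp0
      · have hmp : multiplicity p f = 1 := by
          rw [hg, a2_mult p p g hpi hp0 hg0, multiplicity_self, multiplicity_eq_zero.mpr hpg]
        obtain ⟨h1, h2, h3⟩ := hp p hpi (by rw [hmp]; exact odd_one)
        have hc0 := a2_coeff_zero a ha p hpi h1
        have hHp := a2_norm a b d H hH p hpm hpi hc0 h1 h2 h3
        have hdeg : g.natDegree < n := by
          rw [← hn, hg, natDegree_mul hp0 hg0]
          omega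
        have key := ih g.natDegree hdeg g rfl hg0 (by
          intro q hq hodd
          apply hp q hq
          rw [hg, a2_mult q p g hq hp0 hg0]
          have hqg : q ∣ g := by
            by_contra hno
            rw [multiplicity_eq_zero.mpr hno] at hodd
            exact (Nat.not_odd_iff_even.mpr Even.zero) hodd
          have hqp : ¬ q ∣ p := by
            intro hqp
            exact hpg ((hq.dvd_symm hpi hqp).trans hqg)
          rw [multiplicity_eq_zero.mpr hqp, zero_add]
          exact hodd)
        have h4 : f.trailingCoeff * f.leadingCoeff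
            = p.coeff 0 * (g.trailingCoeff * g.leadingCoeff) := by
          rw [hg, Polynomial.trailingCoeff_mul, Polynomial.leadingCoeff_mul, hpm.leadingCoeff,
            a2_trailingCoeff_of p hc0]
          ring
        rw [h4]
        exact hH.mul _ _ hHp key

end Pool.Agent.H20.UT
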