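import Pool.Agent.H12.UT.Targets2

/-! MP_8b378c_ag: board utn_modules, row EXV. -/

open Polynomial
open Pool.Agent.H12.UT

namespace Pool.Agent.H20.UT

theorem exv_gen (K F G : Type) [Field K] [Field F] [Field G] [Algebra K F] [Algebra K G]
    [Algebra F G] [IsScalarTower K F G] (n m : ℕ) [Algebra (MvPolynomial (Fin m) F) G]
    [IsFractionRing (MvPolynomial (Fin m) F) G] [IsScalarTower F (MvPolynomial (Fin m) F) G]
    (x : Fin n → F)
    (S : Set F) (hx : AlgebraicIndependent K x)
    (hgen : IntermediateField.adjoin K (Set.range x ∪ S) = ⊤) :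
    ∃ w : Fin m → G,
    AlgebraicIndependent K (Sum.elim
      (fun j => algebraMap F G (x j)) w) ∧
    IntermediateField.adjoin K (Set.range (Sum.elim
      (fun j => algebraMap F G (x j)) w) ∪
      (algebraMap F G) '' S) = ⊤ := by
  let w : Fin m → G := fun i => algebraMap (MvPolynomial (Fin m) F) G (MvPolynomial.X i)
  have hw : AlgebraicIndependent F w := by
    have h1 : AlgebraicIndependent F (MvPolynomial.X : Fin m → MvPolynomial (Fin m) F) :=
      MvPolynomial.algebraicIndependent_X (Fin m) F
    have hinj0 : Function.Injective (algebraMap (MvPolynomial (Fin m) F) G) :=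
      IsFractionRing.injective (MvPolynomial (Fin m) F) G
    have hinj : Function.Injective (IsScalarTower.toAlgHom F (MvPolynomial (Fin m) F) G) := by
      intro p q hpq
      rw [IsScalarTower.coe_toAlgHom'] at hpq
      exact hinj0 hpq
    have h2 := h1.map' hinj
    have h3 : w = (IsScalarTower.toAlgHom F (MvPolynomial (Fin m) F) G) ∘ MvPolynomial.X := by
      funext i
      rw [IsScalarTower.coe_toAlgHom']
      rfl
    rw [h3]
    exact h2
  refine ⟨w, ?_, ?_⟩
  · have h2 := hx.sumElim_comp hw
    have h3 := h2.comp (Equiv.sumComm (Fin n) (Fin m)) (Equiv.injective _)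
    have h4 : (Sum.elim w (⇑(algebraMap F G) ∘ x)) ∘ (Equiv.sumComm (Fin n) (Fin m))
        = Sum.elim (fun j => algebraMap F G (x j)) w := by
      funext j
      rcases j with j | j <;> rfl
    rw [h4] at h3
    exact h3
  · set L := IntermediateField.adjoin K (Set.range (Sum.elim
      (fun j => algebraMap F G (x j)) w) ∪ (algebraMap F G) '' S) with hL
    have hF : ∀ c : F, algebraMap F G c ∈ L := by
      intro c
      let φ : F →ₐ[K] G := IsScalarTower.toAlgHom K F G
      have h5 : IntermediateField.adjoin K (Set.range x ∪ S) ≤ L.comap φ := by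
        rw [IntermediateField.adjoin_le_iff]
        rintro y (⟨j, rfl⟩ | hy)
        · show algebraMap F G (x j) ∈ L
          exact IntermediateField.subset_adjoin K _ (Or.inl ⟨Sum.inl j, rfl⟩)
        · show algebraMap F G y ∈ L
          exact IntermediateField.subset_adjoin K _ (Or.inr ⟨y, hy, rfl⟩)
      have h6 : c ∈ L.comap φ := h5 (by rw [hgen]; trivial)
      exact h6
    have hP : ∀ P : MvPolynomial (Fin m) F, algebraMap (MvPolynomial (Fin m) F) G P ∈ L := by
      intro P
      induction P using MvPolynomial.induction_on with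
      | C c =>
        have : algebraMap (MvPolynomial (Fin m) F) G (MvPolynomial.C c) = algebraMap F G c := by
          rw [IsScalarTower.algebraMap_apply F (MvPolynomial (Fin m) F) G]
          rfl
        rw [this]
        exact hF c
      | add p q hp hq =>
        rw [map_add]
        exact add_mem hp hq
      | mul_X p i hp =>
        rw [map_mul]
        refine mul_mem hp ?_
        exact IntermediateField.subset_adjoin K _ (Or.inl ⟨Sum.inr i, rfl⟩)
    rw [eq_top_iff]
    intro g _
    obtain ⟨p, q, -, rfl⟩ := IsFractionRing.div_surjective (A := MvPolynomial (Fin m) F) g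
    exact div_mem (hP p) (hP q)

/-- EXV. -/
theorem pf_EXV : T_EXV := by
  intro K F _ _ _ n m x S hx hgen
  exact exv_gen K F (FractionRing (MvPolynomial (Fin m) F)) n m x S hx hgen

end Pool.Agent.H20.UT
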